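import Pool.Agent.Helper6.KS.KthTest

/-! The `k`-th derivative test for smooth phases and for `∑ n^(-it)` (project KS, MP_768c9c_nt). -/

set_option autoImplicit false
open scoped Classical ComplexConjugate

namespace Pool.Agent.Helper6.KS

open Pool.Agent.Helper10.QRH Pool.Agent.Helper64.QRH

/-- `k`-th difference = `k`-th derivative at an intermediate point (chain of derivatives `F`) -/
theorem iter_mvt (k : ℕ) : ∀ (F : ℕ → ℝ → ℝ) (a b : ℝ),
    (∀ j < k, ∀ x ∈ Set.Icc a b, HasDerivAt (F j) (F (j + 1) x) x) →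
    ∀ n : ℕ, a + n + k ≤ b →
      ∃ ξ ∈ Set.Icc (a + n) (a + n + k),
        (fwdDiff 1)^[k] (fun m : ℕ => F 0 (a + m)) n = F k ξ := by
  induction k with
  | zero =>
    intro F a b _ n _
    exact ⟨a + n, ⟨le_rfl, by simp⟩, rfl⟩
  | succ k ih =>
    intro F a b hF n hn
    push_cast at hn
    have h1 := ih (fun j x => F j (x + 1) - F j x) a (b - 1) (by
      intro j hj x hx
      have e1 : HasDerivAt (fun x => F j (x + 1)) (F (j + 1) (x + 1)) x :=
        HasDerivAt.comp_add_const x 1 (hF j (by omega) (x + 1) ⟨by linarith [hx.1], by linarith [hx.2]⟩)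
      exact e1.sub (hF j (by omega) x ⟨hx.1, by linarith [hx.2]⟩)) n (by linarith)
    obtain ⟨η, hη, hη'⟩ := h1
    have hn0 : (0 : ℝ) ≤ n := Nat.cast_nonneg n
    have hk0 : (0 : ℝ) ≤ k := Nat.cast_nonneg k
    obtain ⟨ξ, hξ, hξ'⟩ := exists_hasDerivAt_eq_slope (F k) (F (k + 1)) (show η < η + 1 by linarith)
      (fun x hx => (hF k (by omega) x ⟨by linarith [hx.1, hη.1], by linarith [hx.2, hη.2]⟩).continuousAt.continuousWithinAt)
      (fun x hx => hF k (by omega) x ⟨by linarith [hx.1, hη.1], by linarith [hx.2, hη.2]⟩)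
    refine ⟨ξ, ⟨by linarith [hξ.1, hη.1], by push_cast; linarith [hξ.2, hη.2]⟩, ?_⟩
    rw [Function.iterate_succ_apply]
    have e2 : fwdDiff 1 (fun m : ℕ => F 0 (a + m)) = fun m : ℕ => F 0 (a + m + 1) - F 0 (a + m) := by
      funext m
      simp only [fwdDiff]
      push_cast
      rw [add_assoc]
    rw [e2, hη', hξ']
    have e3 : η + 1 - η = 1 := by ring
    rw [e3, div_one]

/-- **the k-th derivative test** for a chain of derivatives `F 0, ..., F k` on `[a, a+N]` -/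
theorem deriv_test (k : ℕ) (hk : 2 ≤ k) (F : ℕ → ℝ → ℝ) (a : ℝ) (N : ℕ) (lam h : ℝ)
    (hl : 0 < lam) (hh : 1 ≤ h)
    (hF : ∀ j < k, ∀ x ∈ Set.Icc a (a + N), HasDerivAt (F j) (F (j + 1) x) x)
    (hb : ∀ x ∈ Set.Icc a (a + N), lam ≤ F k x ∧ F k x ≤ h * lam) :
    ‖∑ n ∈ Finset.range N, ee (F 0 (a + n))‖ ≤ 20 * bd (2 ^ (k - 1)) N lam h := by
  refine kth_test k hk (fun n => F 0 (a + n)) N lam h hl hh ?_
  intro n hn
  have hn' : (n : ℝ) + k < N := by exact_mod_cast hn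
  obtain ⟨ξ, hξ, hξ'⟩ := iter_mvt k F a (a + N) hF n (by linarith)
  rw [hξ']
  have hn0 : (0 : ℝ) ≤ n := Nat.cast_nonneg n
  exact hb ξ ⟨by linarith [hξ.1], by linarith [hξ.2]⟩

theorem norm_sum_neg (θ : ℕ → ℝ) (N : ℕ) :
    ‖∑ n ∈ Finset.range N, ee (-θ n)‖ = ‖∑ n ∈ Finset.range N, ee (θ n)‖ := by
  rw [← RCLike.norm_conj, map_sum]
  congr 1
  refine Finset.sum_congr rfl (fun n _ => ?_)
  rw [conj_ee, neg_neg]

/-- the same test for a negative `k`-th derivative -/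
theorem deriv_test_neg (k : ℕ) (hk : 2 ≤ k) (F : ℕ → ℝ → ℝ) (a : ℝ) (N : ℕ) (lam h : ℝ)
    (hl : 0 < lam) (hh : 1 ≤ h)
    (hF : ∀ j < k, ∀ x ∈ Set.Icc a (a + N), HasDerivAt (F j) (F (j + 1) x) x)
    (hb : ∀ x ∈ Set.Icc a (a + N), lam ≤ -F k x ∧ -F k x ≤ h * lam) :
    ‖∑ n ∈ Finset.range N, ee (F 0 (a + n))‖ ≤ 20 * bd (2 ^ (k - 1)) N lam h := by
  have := deriv_test k hk (fun j x => -F j x) a N lam h hl hh
    (fun j hj x hx => (hF j hj x hx).neg) hb
  simpa only [norm_sum_neg (fun n => F 0 (a + n))] using this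

/-! ### logarithmic phases -/

/-- the derivatives of `c log x` -/
noncomputable def logChain (c : ℝ) (j : ℕ) (x : ℝ) : ℝ :=
  if j = 0 then c * Real.log x else c * ((-1) ^ (j - 1) * ((j - 1).factorial : ℝ) * x ^ (-(j : ℤ)))

theorem logChain_deriv (c : ℝ) (j : ℕ) (x : ℝ) (hx : 0 < x) :
    HasDerivAt (logChain c j) (logChain c (j + 1) x) x := by
  unfold logChain
  rcases Nat.eq_zero_or_pos j with h | h
  · subst h
    simp only [if_true, Nat.zero_add, if_neg (show ¬ (1 : ℕ) = 0 by omega), Nat.sub_self, pow_zero,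
      Nat.factorial_zero, Nat.cast_one, one_mul]
    have := (Real.hasDerivAt_log hx.ne').const_mul c
    simpa using this
  · obtain ⟨i, rfl⟩ := Nat.exists_eq_add_of_le' h
    simp only [if_neg (show ¬ (i + 1 = 0) by omega), if_neg (show ¬ (i + 1 + 1 = 0) by omega),
      Nat.add_sub_cancel]
    have h1 := hasDerivAt_zpow (-((i + 1 : ℕ) : ℤ)) x (Or.inl hx.ne')
    have h2 := (h1.const_mul ((-1) ^ i * (i.factorial : ℝ))).const_mul c
    refine h2.congr_deriv ?_
    rw [Nat.factorial_succ]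
    have e : (-(((i + 1 : ℕ) : ℤ)) - 1) = -(((i + 1 + 1 : ℕ)) : ℤ) := by push_cast; ring
    rw [e, pow_succ]
    push_cast
    ring

/-- the constant of `n^(-it)` sums: `(k-1)!/(2π 2^k)` -/
noncomputable def ck (k : ℕ) : ℝ := ((k - 1).factorial : ℝ) / (2 * Real.pi * 2 ^ k)

theorem ck_pos (k : ℕ) : 0 < ck k := by
  unfold ck
  positivity

/-- `∑_{M ≤ n < M+N} n^(it)`, `N ≤ M`, by the `k`-th derivative test -/
theorem log_sum (k : ℕ) (hk : 2 ≤ k) (t : ℝ) (ht : 0 < t) (M N : ℕ) (hM : 1 ≤ M) (hN : N ≤ M) :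
    ‖∑ n ∈ Finset.range N, ee (t / (2 * Real.pi) * Real.log ((M : ℝ) + n))‖ ≤
      20 * bd (2 ^ (k - 1)) N (ck k * (t / (M : ℝ) ^ k)) (2 ^ k) := by
  have hM0 : (0 : ℝ) < M := by exact_mod_cast hM
  have hNM : (N : ℝ) ≤ M := by exact_mod_cast hN
  have hpi := Real.pi_pos
  have hc : 0 < t / (2 * Real.pi) := by positivity
  have hlam : 0 < ck k * (t / (M : ℝ) ^ k) := mul_pos (ck_pos k) (by positivity)
  have hh : (1 : ℝ) ≤ 2 ^ k := one_le_pow₀ (by norm_num)
  set c := t / (2 * Real.pi) with hcdef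
  have hF : ∀ j < k, ∀ x ∈ Set.Icc (M : ℝ) (M + N), HasDerivAt (logChain c j) (logChain c (j + 1) x) x :=
    fun j _ x hx => logChain_deriv c j x (by linarith [hx.1])
  have habs : ∀ x ∈ Set.Icc (M : ℝ) (M + N),
      ck k * (t / (M : ℝ) ^ k) ≤ c * (((k - 1).factorial : ℝ) * x ^ (-(k : ℤ))) ∧
      c * (((k - 1).factorial : ℝ) * x ^ (-(k : ℤ))) ≤ 2 ^ k * (ck k * (t / (M : ℝ) ^ k)) := by
    intro x hx
    have hx0 : 0 < x := by linarith [hx.1]
    have e1 : x ^ (-(k : ℤ)) = 1 / x ^ k := by rw [zpow_neg, zpow_natCast, one_div]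
    rw [e1, hcdef]
    unfold ck
    have hxM : (M : ℝ) ^ k ≤ x ^ k := pow_le_pow_left₀ hM0.le hx.1 k
    have hxM2 : x ^ k ≤ (2 * (M : ℝ)) ^ k := pow_le_pow_left₀ hx0.le (by linarith [hx.2]) k
    rw [mul_pow] at hxM2
    have hxk : 0 < x ^ k := by positivity
    have hMk : 0 < (M : ℝ) ^ k := by positivity
    have hf : (0 : ℝ) < ((k - 1).factorial : ℝ) := by positivity
    constructor
    · have : 1 / (2 ^ k * (M : ℝ) ^ k) ≤ 1 / x ^ k := one_div_le_one_div_of_le hxk hxM2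
      calc ((k - 1).factorial : ℝ) / (2 * Real.pi * 2 ^ k) * (t / (M : ℝ) ^ k) =
            t / (2 * Real.pi) * (((k - 1).factorial : ℝ) * (1 / (2 ^ k * (M : ℝ) ^ k))) := by
            field_simp
        _ ≤ _ := by gcongr
    · have : 1 / x ^ k ≤ 1 / (M : ℝ) ^ k := one_div_le_one_div_of_le hMk hxM
      calc t / (2 * Real.pi) * (((k - 1).factorial : ℝ) * (1 / x ^ k)) ≤
            t / (2 * Real.pi) * (((k - 1).factorial : ℝ) * (1 / (M : ℝ) ^ k)) := by gcongr
        _ = _ := by field_simp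
  have hval : ∀ n : ℕ, logChain c 0 ((M : ℝ) + n) = c * Real.log ((M : ℝ) + n) := by
    intro n; unfold logChain; rw [if_pos rfl]
  rcases Nat.even_or_odd (k - 1) with he | ho
  · have := deriv_test k hk (logChain c) M N _ (2 ^ k) hlam hh hF (by
      intro x hx
      unfold logChain
      rw [if_neg (by omega), he.neg_one_pow, one_mul]
      exact habs x hx)
    simpa only [hval] using this
  · have := deriv_test_neg k hk (logChain c) M N _ (2 ^ k) hlam hh hF (by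
      intro x hx
      unfold logChain
      rw [if_neg (by omega), ho.neg_one_pow]
      have e : -(c * (-1 * ((k - 1).factorial : ℝ) * x ^ (-(k : ℤ)))) =
        c * (((k - 1).factorial : ℝ) * x ^ (-(k : ℤ))) := by ring
      rw [e]
      exact habs x hx)
    simpa only [hval] using this

/-- in terms of complex powers -/
theorem cpow_eq_ee (t x : ℝ) (hx : 0 < x) :
    (x : ℂ) ^ ((t : ℂ) * Complex.I) = ee (t / (2 * Real.pi) * Real.log x) := by
  have hpi := Real.pi_pos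
  unfold ee
  rw [Complex.cpow_def_of_ne_zero (by exact_mod_cast hx.ne'), ← Complex.ofReal_log hx.le]
  congr 1
  push_cast
  have : (Real.pi : ℂ) ≠ 0 := by exact_mod_cast hpi.ne'
  field_simp

theorem cpow_sum (k : ℕ) (hk : 2 ≤ k) (t : ℝ) (ht : 0 < t) (M N : ℕ) (hM : 1 ≤ M) (hN : N ≤ M) :
    ‖∑ n ∈ Finset.range N, ((((M + n : ℕ) : ℝ) : ℂ)) ^ ((t : ℂ) * Complex.I)‖ ≤
      20 * bd (2 ^ (k - 1)) N (ck k * (t / (M : ℝ) ^ k)) (2 ^ k) := by
  have := log_sum k hk t ht M N hM hN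
  refine le_trans (le_of_eq ?_) this
  congr 1
  refine Finset.sum_congr rfl (fun n _ => ?_)
  rw [cpow_eq_ee t _ (by exact_mod_cast (by omega : 0 < M + n))]
  push_cast
  rfl

end Pool.Agent.Helper6.KS
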