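import Pool.Agent.Helper6.KS.VdCIneq
import Pool.Agent.Helper64.QRH.Vdc

/-! The `k`-th derivative test of van der Corput for every `k ≥ 2`, with an absolute constant
(project KS, MP_768c9c_nt). -/

set_option autoImplicit false
open scoped Classical ComplexConjugate

namespace Pool.Agent.Helper6.KS

open Pool.Agent.Helper10.QRH Pool.Agent.Helper64.QRH

theorem conj_ee (x : ℝ) : conj (ee x) = ee (-x) := by
  unfold ee
  rw [← Complex.exp_conj]
  congr 1
  simp only [map_mul, Complex.conj_ofReal, Complex.conj_I, map_ofNat]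
  push_cast
  ring

theorem corr_ee (θ : ℕ → ℝ) (N r : ℕ) :
    corr (fun n => ee (θ n)) N r = ∑ n ∈ Finset.range (N - r), ee (θ (n + r) - θ n) := by
  unfold corr
  refine Finset.sum_congr rfl (fun n _ => ?_)
  rw [conj_ee, ← ee_add, sub_eq_add_neg]

theorem triv_ee (θ : ℕ → ℝ) (N : ℕ) : ‖∑ n ∈ Finset.range N, ee (θ n)‖ ≤ N := by
  refine (norm_sum_le _ _).trans ?_
  refine (Finset.sum_le_card_nsmul _ _ 1 (fun n _ => (norm_ee _).le)).trans (by simp)

theorem base_case (θ : ℕ → ℝ) (N : ℕ) (lam h : ℝ) (hl : 0 < lam) (hh : 1 ≤ h)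
    (H : ∀ n, n + 2 < N → lam ≤ (fwdDiff 1)^[2] θ n ∧ (fwdDiff 1)^[2] θ n ≤ h * lam) :
    ‖∑ n ∈ Finset.range N, ee (θ n)‖ ≤ 20 * (h * N * Real.sqrt lam + 1 / Real.sqrt lam) := by
  have hr : 0 < Real.sqrt lam := Real.sqrt_pos.2 hl
  rcases Nat.eq_zero_or_pos N with hN | hN
  · subst hN; simp
  obtain ⟨M, rfl⟩ := Nat.exists_eq_add_of_le' hN
  rcases le_or_gt (Real.sqrt lam) (1/4) with hlam | hlam
  · rw [Finset.sum_range_succ]
    have hmain := seq_bound (z := fun n => ee (θ n)) (δ := fun n => θ (n + 1) - θ n) (N := M) hl hh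
      (fun n => (norm_ee _).le)
      (fun n _ => by rw [← ee_add]; congr 1; ring)
      (fun n hn => by
        have := (H n (by omega)).1
        simp only [Function.iterate_succ, Function.iterate_zero, Function.comp, fwdDiff, id] at this
        linarith)
      (fun n hn => by
        have := (H n (by omega)).2
        simp only [Function.iterate_succ, Function.iterate_zero, Function.comp, fwdDiff, id] at this
        linarith) hlam
    refine (norm_add_le _ _).trans ?_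
    rw [norm_ee]
    have e5 : (h * lam * M + 2) * (5 / Real.sqrt lam) =
        5 * (h * (M * Real.sqrt lam)) + 10 * (1 / Real.sqrt lam) := by
      have h1 : Real.sqrt lam * Real.sqrt lam = lam := Real.mul_self_sqrt hl.le
      field_simp
      linear_combination (-(5 * h * M)) * h1
    rw [e5] at hmain
    have h3 : 4 ≤ 1 / Real.sqrt lam := by rw [le_div_iff₀ hr]; linarith
    have h4 : 0 ≤ h * (M * Real.sqrt lam) := by positivity
    have h5 : 0 ≤ h * Real.sqrt lam := by positivity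
    push_cast
    nlinarith
  · refine (triv_ee θ (M + 1)).trans ?_
    have h3 : 0 < 1 / Real.sqrt lam := by positivity
    have h4 : (0 : ℝ) < ((M + 1 : ℕ) : ℝ) := by positivity
    have h5 : ((M + 1 : ℕ) : ℝ) ≤ 4 * (((M + 1 : ℕ) : ℝ) * Real.sqrt lam) := by nlinarith
    have h6 : ((M + 1 : ℕ) : ℝ) * Real.sqrt lam ≤ h * ((M + 1 : ℕ) : ℝ) * Real.sqrt lam := by
      have : 0 ≤ ((M + 1 : ℕ) : ℝ) * Real.sqrt lam := by positivity
      nlinarith
    nlinarith

/-! ### differences of a shifted difference -/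

theorem shift_diff (θ : ℕ → ℝ) (r : ℕ) :
    (fun n => θ (n + r) - θ n) = fun n => ∑ j ∈ Finset.range r, fwdDiff 1 θ (n + j) := by
  funext n
  induction r with
  | zero => simp
  | succ r ih =>
    rw [Finset.sum_range_succ, ← ih]
    simp only [fwdDiff]
    rw [show n + (r + 1) = n + r + 1 by ring]
    ring

theorem iter_shift (k r : ℕ) (θ : ℕ → ℝ) (n : ℕ) :
    (fwdDiff 1)^[k] (fun n => θ (n + r) - θ n) n =
      ∑ j ∈ Finset.range r, (fwdDiff 1)^[k + 1] θ (n + j) := by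
  rw [shift_diff]
  have e : (fun n => ∑ j ∈ Finset.range r, fwdDiff 1 θ (n + j)) =
      ∑ j ∈ Finset.range r, (fun n => fwdDiff 1 θ (n + j)) := by
    funext n
    rw [Finset.sum_apply]
  rw [e, fwdDiff_iter_finsetSum, Finset.sum_apply]
  refine Finset.sum_congr rfl (fun j _ => ?_)
  rw [fwdDiff_iter_comp_add, Function.iterate_succ_apply]

/-! ### numerical sums -/

theorem sum_inv_sqrt' (H : ℕ) :
    ∑ r ∈ Finset.Ico 1 (H + 1), 1 / Real.sqrt r ≤ 2 * Real.sqrt H := by
  induction H with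
  | zero => simp
  | succ H ih =>
    rw [Finset.sum_Ico_succ_top (by omega)]
    have hHp : (0 : ℝ) ≤ H := Nat.cast_nonneg H
    push_cast
    have h1 : 0 < Real.sqrt (H + 1) := Real.sqrt_pos.2 (by linarith)
    have h2 : Real.sqrt H ≤ Real.sqrt (H + 1) := Real.sqrt_le_sqrt (by linarith)
    have h3 : Real.sqrt (H + 1) * Real.sqrt (H + 1) = H + 1 := Real.mul_self_sqrt (by linarith)
    have h4 : Real.sqrt H * Real.sqrt H = H := Real.mul_self_sqrt hHp
    have h5 : 0 ≤ Real.sqrt H := Real.sqrt_nonneg _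
    have h6 : 1 / Real.sqrt (H + 1) ≤ 2 * Real.sqrt (H + 1) - 2 * Real.sqrt H := by
      rw [div_le_iff₀ h1]
      nlinarith [sq_nonneg (Real.sqrt (H + 1) - Real.sqrt H)]
    linarith

theorem sum_inv_sqrt (H : ℕ) :
    ∑ r ∈ Finset.Ico 1 H, 1 / Real.sqrt r ≤ 2 * Real.sqrt H := by
  rcases Nat.eq_zero_or_pos H with h | h
  · subst h; simp
  obtain ⟨M, rfl⟩ := Nat.exists_eq_add_of_le' h
  refine (sum_inv_sqrt' M).trans ?_
  have := Real.sqrt_le_sqrt (show (M : ℝ) ≤ ((M + 1 : ℕ) : ℝ) by push_cast; linarith)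
  linarith

theorem sum_rpow_neg (H : ℕ) (a : ℝ) (ha0 : 0 ≤ a) (ha : a ≤ 1/2) :
    ∑ r ∈ Finset.Ico 1 H, (r : ℝ) ^ (-a) ≤ 2 * (H * (H : ℝ) ^ (-a)) := by
  rcases Nat.eq_zero_or_pos H with h | h
  · subst h; simp
  have hH : (0 : ℝ) < H := by exact_mod_cast h
  have h1 : ∀ r ∈ Finset.Ico 1 H, (r : ℝ) ^ (-a) ≤ (H : ℝ) ^ (1/2 - a) * (1 / Real.sqrt r) := by
    intro r hr
    rw [Finset.mem_Ico] at hr
    have hr0 : (0 : ℝ) < r := by exact_mod_cast (by omega : 0 < r)
    have hrH : (r : ℝ) ≤ H := by exact_mod_cast hr.2.le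
    have e : (r : ℝ) ^ (-a) = (r : ℝ) ^ (1/2 - a) * (1 / Real.sqrt r) := by
      have e' : 1 / Real.sqrt r = (r : ℝ) ^ (-(1/2 : ℝ)) := by
        rw [Real.rpow_neg hr0.le, ← Real.sqrt_eq_rpow, one_div]
      rw [e', ← Real.rpow_add hr0]
      congr 1
      ring
    rw [e]
    refine mul_le_mul_of_nonneg_right ?_ (by positivity)
    exact Real.rpow_le_rpow hr0.le hrH (by linarith)
  refine (Finset.sum_le_sum h1).trans ?_
  rw [← Finset.mul_sum]
  have h2 := sum_inv_sqrt H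
  have h3 : (H : ℝ) ^ (1/2 - a) * Real.sqrt H = H * (H : ℝ) ^ (-a) := by
    rw [Real.sqrt_eq_rpow, ← Real.rpow_add hH]
    nth_rewrite 2 [← Real.rpow_one (H : ℝ)]
    rw [← Real.rpow_add hH]
    congr 1
    ring
  calc (H : ℝ) ^ (1/2 - a) * ∑ i ∈ Finset.Ico 1 H, 1 / Real.sqrt i ≤
        (H : ℝ) ^ (1/2 - a) * (2 * Real.sqrt H) :=
        mul_le_mul_of_nonneg_left h2 (by positivity)
    _ = 2 * ((H : ℝ) ^ (1/2 - a) * Real.sqrt H) := by ring
    _ = _ := by rw [h3]

theorem sum_rpow_pos (H : ℕ) (a : ℝ) (ha0 : 0 ≤ a) :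
    ∑ r ∈ Finset.Ico 1 H, (r : ℝ) ^ a ≤ H * (H : ℝ) ^ a := by
  have h1 : ∀ r ∈ Finset.Ico 1 H, (r : ℝ) ^ a ≤ (H : ℝ) ^ a := by
    intro r hr
    rw [Finset.mem_Ico] at hr
    exact Real.rpow_le_rpow (Nat.cast_nonneg _) (by exact_mod_cast hr.2.le) ha0
  refine (Finset.sum_le_card_nsmul _ _ _ h1).trans ?_
  rw [nsmul_eq_mul, Nat.card_Ico]
  refine mul_le_mul_of_nonneg_right ?_ (by positivity)
  exact_mod_cast Nat.sub_le H 1

/-! ### the induction step -/

/-- the bound of the test with `K = 2^(k-1)` -/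
noncomputable def bd (K : ℝ) (N : ℕ) (lam h : ℝ) : ℝ :=
  h ^ (2 / K) * N * lam ^ (1 / (2 * K - 2)) + (N : ℝ) ^ (1 - 2 / K) * lam ^ (-(1 / (2 * K - 2)))

def Test (k : ℕ) (K : ℝ) : Prop := ∀ (θ : ℕ → ℝ) (N : ℕ) (lam h : ℝ), 0 < lam → 1 ≤ h →
    (∀ n, n + k < N → lam ≤ (fwdDiff 1)^[k] θ n ∧ (fwdDiff 1)^[k] θ n ≤ h * lam) →
    ‖∑ n ∈ Finset.range N, ee (θ n)‖ ≤ 20 * bd K N lam h

theorem test_two : Test 2 2 := by
  intro θ N lam h hl hh H
  refine (base_case θ N lam h hl hh H).trans (le_of_eq ?_)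
  unfold bd
  rw [show (2 : ℝ) / 2 = 1 by norm_num, show (1 : ℝ) - 1 = 0 by norm_num, Real.rpow_one,
    Real.rpow_zero, one_mul, show (1 : ℝ) / (2 * 2 - 2) = 1 / 2 by norm_num,
    Real.rpow_neg hl.le, ← Real.sqrt_eq_rpow, one_div]

theorem expo_id (c : ℝ) (hc : 0 < c) : 1 / c + -(1 / (c + 1)) * (1 / c) = 1 / (c + 1) := by
  field_simp
  ring

theorem test_succ (k : ℕ) (K : ℝ) (hK : 2 ≤ K) (T : Test k K) : Test (k + 1) (2 * K) := by
  intro θ N lam h hl hh H
  have hK0 : 0 < K := by linarith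
  have h2K : 0 < 2 * K - 1 := by linarith
  have h2K2 : 0 < 2 * K - 2 := by linarith
  rcases Nat.eq_zero_or_pos N with hN | hN
  · subst hN
    rw [Finset.sum_range_zero, norm_zero]
    unfold bd
    positivity
  have hNR : (1 : ℝ) ≤ N := by exact_mod_cast hN
  have hN0 : (0 : ℝ) < N := by linarith
  -- the trivial cases
  have hbd1 : 1 ≤ lam → (N : ℝ) ≤ bd (2 * K) N lam h := by
    intro h1
    unfold bd
    have e1 : 1 ≤ h ^ (2 / (2 * K)) := Real.one_le_rpow hh (by positivity)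
    have e2 : 1 ≤ lam ^ (1 / (2 * (2 * K) - 2)) :=
      Real.one_le_rpow h1 (by apply one_div_nonneg.2; linarith)
    have e3 : 0 ≤ (N : ℝ) ^ (1 - 2 / (2 * K)) * lam ^ (-(1 / (2 * (2 * K) - 2))) := by positivity
    have e4 : (N : ℝ) ≤ h ^ (2 / (2 * K)) * N * lam ^ (1 / (2 * (2 * K) - 2)) := by
      calc (N : ℝ) = 1 * N * 1 := by ring
        _ ≤ _ := by gcongr
    linarith
  rcases le_or_gt 1 lam with h1 | hlam1
  · have := hbd1 h1
    refine (triv_ee θ N).trans ?_
    linarith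
  -- x = lam^(-1/(2K-1))
  set x := lam ^ (-(1 / (2 * K - 1))) with hx
  set μ := lam ^ (1 / (2 * K - 1)) with hμ
  have hμ0 : 0 < μ := by positivity
  have hx0 : 0 < x := by positivity
  have hxμ : x * μ = 1 := by
    rw [hx, hμ, ← Real.rpow_add hl]
    simp
  have hx1 : 1 < x := by
    rw [hx]
    apply Real.one_lt_rpow_of_pos_of_lt_one_of_neg hl hlam1
    have : 0 < 1 / (2 * K - 1) := by positivity
    linarith
  rcases lt_or_ge (N : ℝ) x with hNx | hNx
  · -- trivial bound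
    refine (triv_ee θ N).trans ?_
    have e1 : (N : ℝ) ≤ (N : ℝ) ^ (1 - 2 / (2 * K)) * lam ^ (-(1 / (2 * (2 * K) - 2))) := by
      have e2 : (N : ℝ) ^ (1 / K) ≤ lam ^ (-(1 / (2 * (2 * K) - 2))) := by
        calc (N : ℝ) ^ (1 / K) ≤ (N : ℝ) ^ (1 / 2 : ℝ) := by
              apply Real.rpow_le_rpow_of_exponent_le hNR
              apply one_div_le_one_div_of_le (by norm_num) hK
          _ ≤ x ^ (1 / 2 : ℝ) := Real.rpow_le_rpow hN0.le hNx.le (by norm_num)
          _ = lam ^ (-(1 / (2 * (2 * K) - 2))) := by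
              rw [hx, ← Real.rpow_mul hl.le]
              congr 1
              have : 2 * (2 * K) - 2 = (2 * K - 1) * 2 := by ring
              rw [this]
              field_simp
      calc (N : ℝ) = (N : ℝ) ^ (1 - 2 / (2 * K)) * (N : ℝ) ^ (1 / K) := by
            rw [← Real.rpow_add hN0]
            have : 1 - 2 / (2 * K) + 1 / K = 1 := by field_simp; ring
            rw [this, Real.rpow_one]
        _ ≤ _ := mul_le_mul_of_nonneg_left e2 (by positivity)
    have e3 : 0 ≤ h ^ (2 / (2 * K)) * N * lam ^ (1 / (2 * (2 * K) - 2)) := by positivity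
    unfold bd
    linarith
  -- main case
  set P := ⌈x⌉₊ with hP
  have hP1 : 1 ≤ P := Nat.one_le_ceil_iff.2 hx0
  have hPN : P ≤ N := Nat.ceil_le.2 hNx
  have hPx : x ≤ P := Nat.le_ceil x
  have hPx2 : (P : ℝ) ≤ 2 * x := by
    have := Nat.ceil_lt_add_one hx0.le
    rw [← hP] at this
    linarith
  have hP0 : (0 : ℝ) < P := by linarith
  set a := 1 / (2 * K - 2) with ha
  have ha0 : 0 < a := by positivity
  have ha2 : a ≤ 1 / 2 := one_div_le_one_div_of_le (by norm_num) (by linarith)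
  have hcorr : ∀ r ∈ Finset.Ico 1 P, ‖corr (fun n => ee (θ n)) N r‖ ≤
      20 * (h ^ (2 / K) * N * lam ^ a) * (r : ℝ) ^ a +
        20 * ((N : ℝ) ^ (1 - 2 / K) * lam ^ (-a)) * (r : ℝ) ^ (-a) := by
    intro r hr
    rw [Finset.mem_Ico] at hr
    have hr0 : (0 : ℝ) < r := by exact_mod_cast (by omega : 0 < r)
    rw [corr_ee]
    have := T (fun n => θ (n + r) - θ n) (N - r) (r * lam) h (by positivity) hh (by
      intro n hn
      rw [iter_shift]
      have hj : ∀ j ∈ Finset.range r, lam ≤ (fwdDiff 1)^[k + 1] θ (n + j) ∧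
          (fwdDiff 1)^[k + 1] θ (n + j) ≤ h * lam := by
        intro j hj
        rw [Finset.mem_range] at hj
        exact H (n + j) (by omega)
      constructor
      · have := Finset.card_nsmul_le_sum (Finset.range r) _ lam (fun j hj' => (hj j hj').1)
        rwa [Finset.card_range, nsmul_eq_mul] at this
      · have := Finset.sum_le_card_nsmul (Finset.range r) _ (h * lam) (fun j hj' => (hj j hj').2)
        rw [Finset.card_range, nsmul_eq_mul] at this
        linarith)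
    refine this.trans ?_
    unfold bd
    rw [← ha, Real.mul_rpow hr0.le hl.le, Real.mul_rpow hr0.le hl.le]
    have hNr : (((N - r : ℕ)) : ℝ) ≤ N := by exact_mod_cast Nat.sub_le N r
    have e1 : h ^ (2 / K) * ((N - r : ℕ) : ℝ) * ((r : ℝ) ^ a * lam ^ a) ≤
        h ^ (2 / K) * N * ((r : ℝ) ^ a * lam ^ a) := by gcongr
    have hexp : 0 ≤ 1 - 2 / K := by
      rw [sub_nonneg, div_le_one hK0]
      exact hK
    have e2 : ((N - r : ℕ) : ℝ) ^ (1 - 2 / K) * ((r : ℝ) ^ (-a) * lam ^ (-a)) ≤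
        (N : ℝ) ^ (1 - 2 / K) * ((r : ℝ) ^ (-a) * lam ^ (-a)) := by
      gcongr
    nlinarith
  have hsum : ∑ r ∈ Finset.Ico 1 P, ‖corr (fun n => ee (θ n)) N r‖ ≤
      20 * (h ^ (2 / K) * N * lam ^ a) * (P * (P : ℝ) ^ a) +
        20 * ((N : ℝ) ^ (1 - 2 / K) * lam ^ (-a)) * (2 * (P * (P : ℝ) ^ (-a))) := by
    refine (Finset.sum_le_sum hcorr).trans ?_
    rw [Finset.sum_add_distrib, ← Finset.mul_sum, ← Finset.mul_sum]
    have s1 := sum_rpow_pos P a ha0.le
    have s2 := sum_rpow_neg P a ha0.le ha2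
    gcongr
  have hv := vdc_ineq (fun n => ee (θ n)) N P hP1 hPN (fun n => (norm_ee _).le)
  -- simplify
  have q1 : lam ^ a * (P : ℝ) ^ a ≤ 2 * μ := by
    rw [← Real.mul_rpow hl.le hP0.le]
    have e1 : lam * P ≤ 2 * (lam * x) := by nlinarith
    have e2 : (lam * x) ^ a = μ := by
      rw [hx, hμ, Real.mul_rpow hl.le (by positivity), ← Real.rpow_mul hl.le, ← Real.rpow_add hl]
      congr 1
      rw [ha]
      have := expo_id (2 * K - 2) h2K2
      rwa [show 2 * K - 2 + 1 = 2 * K - 1 by ring] at this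
    calc (lam * P) ^ a ≤ (2 * (lam * x)) ^ a := by
          apply Real.rpow_le_rpow (by positivity) e1 ha0.le
      _ = 2 ^ a * μ := by rw [Real.mul_rpow (by norm_num) (by positivity), e2]
      _ ≤ 2 ^ (1 : ℝ) * μ := by
          apply mul_le_mul_of_nonneg_right _ hμ0.le
          apply Real.rpow_le_rpow_of_exponent_le (by norm_num)
          linarith
      _ = 2 * μ := by rw [Real.rpow_one]
  have q2 : lam ^ (-a) * (P : ℝ) ^ (-a) ≤ x := by
    rw [← Real.mul_rpow hl.le hP0.le, Real.rpow_neg (by positivity)]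
    have e2 : (lam * x) ^ a = μ := by
      rw [hx, hμ, Real.mul_rpow hl.le (by positivity), ← Real.rpow_mul hl.le, ← Real.rpow_add hl]
      congr 1
      rw [ha]
      have := expo_id (2 * K - 2) h2K2
      rwa [show 2 * K - 2 + 1 = 2 * K - 1 by ring] at this
    have e3 : μ ≤ (lam * P) ^ a := by
      rw [← e2]
      apply Real.rpow_le_rpow (by positivity) _ ha0.le
      exact mul_le_mul_of_nonneg_left hPx hl.le
    calc ((lam * P) ^ a)⁻¹ ≤ μ⁻¹ := by
          apply inv_anti₀ hμ0 e3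
      _ = x := (eq_inv_of_mul_eq_one_left hxμ).symm
  set U := h ^ (2 / K) * (N : ℝ) with hU
  set V := (N : ℝ) ^ (1 - 2 / K) with hV
  have hU0 : 0 < U := by positivity
  have hV0 : 0 < V := by positivity
  have hUN : (N : ℝ) ≤ U := by
    have : 1 ≤ h ^ (2 / K) := Real.one_le_rpow hh (by positivity)
    rw [hU]
    nlinarith
  have hsum2 : ∑ r ∈ Finset.Ico 1 P, ‖corr (fun n => ee (θ n)) N r‖ ≤
      P * (40 * U * μ + 40 * V * x) := by
    refine hsum.trans ?_
    have e1 : 20 * (U * lam ^ a) * (P * (P : ℝ) ^ a) +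
        20 * (V * lam ^ (-a)) * (2 * (P * (P : ℝ) ^ (-a))) =
        P * (20 * U * (lam ^ a * (P : ℝ) ^ a) + 40 * V * (lam ^ (-a) * (P : ℝ) ^ (-a))) := by ring
    rw [e1]
    apply mul_le_mul_of_nonneg_left _ hP0.le
    nlinarith
  have hfin : ‖∑ n ∈ Finset.range N, ee (θ n)‖ ^ 2 ≤ 162 * (N * U * μ) + 160 * (N * V * x) := by
    refine hv.trans ?_
    rw [div_mul_eq_mul_div, div_le_iff₀ hP0]
    have e1 : (N : ℝ) ≤ P * (μ * N) := by
      have : 1 ≤ P * μ := by nlinarith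
      nlinarith
    have e2 : 2 * (N : ℝ) * (N + 2 * ∑ r ∈ Finset.Ico 1 P, ‖corr (fun n => ee (θ n)) N r‖) ≤
        2 * (N : ℝ) * (P * (μ * U) + 2 * (P * (40 * U * μ + 40 * V * x))) := by
      have e3 : P * (μ * N) ≤ P * (μ * U) := by gcongr
      apply mul_le_mul_of_nonneg_left _ (by positivity)
      linarith
    refine e2.trans (le_of_eq ?_)
    ring
  -- the two terms of the bound
  set A := h ^ (2 / (2 * K)) * N * lam ^ (1 / (2 * (2 * K) - 2)) with hA
  set B := (N : ℝ) ^ (1 - 2 / (2 * K)) * lam ^ (-(1 / (2 * (2 * K) - 2))) with hB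
  have hA0 : 0 ≤ A := by positivity
  have hB0 : 0 ≤ B := by positivity
  have hA2 : A ^ 2 = N * U * μ := by
    have e1 : (h ^ (2 / (2 * K))) ^ 2 = h ^ (2 / K) := by
      rw [← Real.rpow_natCast, ← Real.rpow_mul (by linarith)]
      congr 1
      push_cast
      field_simp
    have e2 : (lam ^ (1 / (2 * (2 * K) - 2))) ^ 2 = μ := by
      rw [hμ, ← Real.rpow_natCast, ← Real.rpow_mul hl.le]
      congr 1
      push_cast
      have : 2 * (2 * K) - 2 = (2 * K - 1) * 2 := by ring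
      rw [this]
      field_simp
    rw [hA, mul_pow, mul_pow, e1, e2, hU]
    ring
  have hB2 : B ^ 2 = N * V * x := by
    have e1 : ((N : ℝ) ^ (1 - 2 / (2 * K))) ^ 2 = N * (N : ℝ) ^ (1 - 2 / K) := by
      rw [← Real.rpow_natCast, ← Real.rpow_mul hN0.le]
      nth_rewrite 2 [← Real.rpow_one (N : ℝ)]
      rw [← Real.rpow_add hN0]
      congr 1
      push_cast
      field_simp
      ring
    have e2 : (lam ^ (-(1 / (2 * (2 * K) - 2)))) ^ 2 = x := by
      rw [hx, ← Real.rpow_natCast, ← Real.rpow_mul hl.le]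
      congr 1
      push_cast
      have : 2 * (2 * K) - 2 = (2 * K - 1) * 2 := by ring
      rw [this]
      field_simp
    rw [hB, mul_pow, e1, e2]
  have hbd : bd (2 * K) N lam h = A + B := rfl
  rw [hbd]
  rw [← hA2, ← hB2] at hfin
  apply le_of_sq_le_sq _ (by positivity)
  nlinarith [mul_nonneg hA0 hB0]

/-- **the k-th derivative test** (discrete form) -/
theorem kth_test (k : ℕ) (hk : 2 ≤ k) : Test k (2 ^ (k - 1)) := by
  induction k, hk using Nat.le_induction with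
  | base => simpa using test_two
  | succ k hk ih =>
    have h1 : (2 : ℝ) ≤ 2 ^ (k - 1) := by
      calc (2 : ℝ) = 2 ^ 1 := by norm_num
        _ ≤ 2 ^ (k - 1) := pow_le_pow_right₀ (by norm_num) (by omega)
    have := test_succ k (2 ^ (k - 1)) h1 ih
    have e : (2 : ℝ) * 2 ^ (k - 1) = 2 ^ (k + 1 - 1) := by
      rw [← pow_succ']
      congr 1
      omega
    rwa [e] at this

end Pool.Agent.Helper6.KS
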