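import Mathlib

/-! The inequality of Weyl and van der Corput (project KS, MP_768c9c_nt). -/

set_option autoImplicit false
open scoped Classical ComplexConjugate

namespace Pool.Agent.Helper6.KS

/-- extension of the first `N` terms by zero to the integers -/
noncomputable def ext (z : ℕ → ℂ) (N : ℕ) (j : ℤ) : ℂ := if 0 ≤ j ∧ j < N then z j.toNat else 0

theorem ext_nat (z : ℕ → ℂ) (N n : ℕ) : ext z N (n : ℤ) = if n < N then z n else 0 := by
  unfold ext
  by_cases h : n < N
  · rw [if_pos ⟨by omega, by exact_mod_cast h⟩, if_pos h]; simp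
  · rw [if_neg (by push Not; intro _; exact_mod_cast (not_lt.1 h)), if_neg h]

/-- the correlation of step `r` -/
noncomputable def corr (z : ℕ → ℂ) (N r : ℕ) : ℂ :=
  ∑ n ∈ Finset.range (N - r), z (n + r) * conj (z n)

noncomputable def GG (z : ℕ → ℂ) (N H : ℕ) (h h' : ℕ) : ℂ :=
  ∑ m ∈ Finset.range (N + H), ext z N ((m : ℤ) - h) * conj (ext z N ((m : ℤ) - h'))

theorem GG_eq (z : ℕ → ℂ) (N H h r : ℕ) (hr : h + r < H) :
    GG z N H h (h + r) = corr z N r := by
  unfold GG corr
  have hsub : (Finset.range (N - r)).image (fun n => n + (h + r)) ⊆ Finset.range (N + H) := by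
    intro m hm
    obtain ⟨n, hn, rfl⟩ := Finset.mem_image.1 hm
    rw [Finset.mem_range] at hn ⊢
    omega
  rw [← Finset.sum_subset hsub]
  · rw [Finset.sum_image (fun a _ b _ hab => by simpa using hab)]
    refine Finset.sum_congr rfl (fun n hn => ?_)
    rw [Finset.mem_range] at hn
    have e1 : (((n + (h + r) : ℕ) : ℤ) - h) = ((n + r : ℕ) : ℤ) := by push_cast; ring
    have e2 : (((n + (h + r) : ℕ) : ℤ) - ((h + r : ℕ) : ℤ)) = (n : ℤ) := by push_cast; ring
    rw [e1, e2, ext_nat, ext_nat, if_pos (by omega), if_pos (by omega)]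
  · intro m hm hm'
    rw [Finset.mem_range] at hm
    by_cases hc : h + r ≤ m
    · obtain ⟨n, rfl⟩ := Nat.exists_eq_add_of_le' hc
      have e1 : (((n + (h + r) : ℕ) : ℤ) - h) = ((n + r : ℕ) : ℤ) := by push_cast; ring
      have hn : ¬ n < N - r := by
        intro hn
        exact hm' (Finset.mem_image.2 ⟨n, Finset.mem_range.2 hn, rfl⟩)
      rw [e1, ext_nat, if_neg (by omega), zero_mul]
    · have : ext z N ((m : ℤ) - ((h + r : ℕ) : ℤ)) = 0 := by
        unfold ext
        rw [if_neg]
        push Not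
        intro h0
        exfalso
        have : ((h + r : ℕ) : ℤ) ≤ m := by linarith
        exact hc (by exact_mod_cast this)
      rw [this, map_zero, mul_zero]

theorem GG_symm (z : ℕ → ℂ) (N H h h' : ℕ) : GG z N H h' h = conj (GG z N H h h') := by
  unfold GG
  rw [map_sum]
  refine Finset.sum_congr rfl (fun m _ => ?_)
  rw [map_mul, Complex.conj_conj, mul_comm]

theorem GG_norm (z : ℕ → ℂ) (N H h h' : ℕ) (h1 : h < H) (h2 : h' < H) :
    ‖GG z N H h h'‖ = ‖corr z N (h - h' + (h' - h))‖ := by
  rcases le_total h h' with hl | hl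
  · obtain ⟨r, rfl⟩ := Nat.exists_eq_add_of_le hl
    rw [GG_eq z N H h r h2]
    congr 2
    omega
  · obtain ⟨r, rfl⟩ := Nat.exists_eq_add_of_le hl
    rw [GG_symm, GG_eq z N H h' r h1, RCLike.norm_conj]
    congr 2
    omega

theorem row_le (g : ℕ → ℝ) (hg : ∀ r, 0 ≤ g r) (H h : ℕ) (hh : h < H) :
    ∑ h' ∈ Finset.range H, g (h - h' + (h' - h)) ≤ g 0 + 2 * ∑ r ∈ Finset.Ico 1 H, g r := by
  have hsplit : Finset.range H = (Finset.range h ∪ {h}) ∪ Finset.Ico (h + 1) H := by
    ext x
    simp only [Finset.mem_union, Finset.mem_range, Finset.mem_singleton, Finset.mem_Ico]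
    omega
  have d1 : Disjoint (Finset.range h ∪ {h}) (Finset.Ico (h + 1) H) := by
    rw [Finset.disjoint_left]
    intro x hx
    simp only [Finset.mem_union, Finset.mem_range, Finset.mem_singleton, Finset.mem_Ico] at hx ⊢
    omega
  have d2 : Disjoint (Finset.range h) {h} := by
    rw [Finset.disjoint_singleton_right]; simp
  rw [hsplit, Finset.sum_union d1, Finset.sum_union d2, Finset.sum_singleton]
  have e0 : g (h - h + (h - h)) = g 0 := by congr 1; omega
  have e1 : ∑ x ∈ Finset.range h, g (h - x + (x - h)) ≤ ∑ r ∈ Finset.Ico 1 H, g r := by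
    have : ∑ x ∈ Finset.range h, g (h - x + (x - h)) =
        ∑ r ∈ (Finset.range h).image (fun x => h - x), g r := by
      rw [Finset.sum_image]
      · refine Finset.sum_congr rfl (fun x hx => ?_)
        rw [Finset.mem_range] at hx
        congr 1
        omega
      · intro a ha b hb hab
        simp only [Finset.coe_range, Set.mem_Iio] at ha hb
        simp only at hab
        omega
    rw [this]
    refine Finset.sum_le_sum_of_subset_of_nonneg ?_ (fun r _ _ => hg r)
    intro r hr
    obtain ⟨x, hx, rfl⟩ := Finset.mem_image.1 hr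
    rw [Finset.mem_range] at hx
    rw [Finset.mem_Ico]
    omega
  have e2 : ∑ x ∈ Finset.Ico (h + 1) H, g (h - x + (x - h)) ≤ ∑ r ∈ Finset.Ico 1 H, g r := by
    have : ∑ x ∈ Finset.Ico (h + 1) H, g (h - x + (x - h)) =
        ∑ r ∈ (Finset.Ico (h + 1) H).image (fun x => x - h), g r := by
      rw [Finset.sum_image]
      · refine Finset.sum_congr rfl (fun x hx => ?_)
        rw [Finset.mem_Ico] at hx
        congr 1
        omega
      · intro a ha b hb hab
        simp only [Finset.coe_Ico, Set.mem_Ico] at ha hb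
        simp only at hab
        omega
    rw [this]
    refine Finset.sum_le_sum_of_subset_of_nonneg ?_ (fun r _ _ => hg r)
    intro r hr
    obtain ⟨x, hx, rfl⟩ := Finset.mem_image.1 hr
    rw [Finset.mem_Ico] at hx
    rw [Finset.mem_Ico]
    omega
  rw [e0]
  linarith

/-- Weyl and van der Corput -/
theorem vdc_ineq (z : ℕ → ℂ) (N H : ℕ) (hH : 1 ≤ H) (hHN : H ≤ N) (hz : ∀ n, ‖z n‖ ≤ 1) :
    ‖∑ n ∈ Finset.range N, z n‖ ^ 2 ≤
      2 * N / H * (N + 2 * ∑ r ∈ Finset.Ico 1 H, ‖corr z N r‖) := by
  set S := ∑ n ∈ Finset.range N, z n with hS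
  set A : ℕ → ℂ := fun m => ∑ h ∈ Finset.range H, ext z N ((m : ℤ) - h) with hA
  have hHR : (1 : ℝ) ≤ H := by exact_mod_cast hH
  have hHN' : (H : ℝ) ≤ N := by exact_mod_cast hHN
  -- total sum
  have h1 : ∑ m ∈ Finset.range (N + H), A m = H * S := by
    rw [hA, Finset.sum_comm]
    have : ∀ h ∈ Finset.range H, ∑ m ∈ Finset.range (N + H), ext z N ((m : ℤ) - h) = S := by
      intro h hh
      rw [Finset.mem_range] at hh
      have hsub : (Finset.range N).image (fun n => n + h) ⊆ Finset.range (N + H) := by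
        intro m hm
        obtain ⟨n, hn, rfl⟩ := Finset.mem_image.1 hm
        rw [Finset.mem_range] at hn ⊢
        omega
      rw [← Finset.sum_subset hsub]
      · rw [Finset.sum_image (fun a _ b _ hab => by simpa using hab)]
        refine Finset.sum_congr rfl (fun n hn => ?_)
        rw [Finset.mem_range] at hn
        have e1 : (((n + h : ℕ) : ℤ) - h) = (n : ℤ) := by push_cast; ring
        rw [e1, ext_nat, if_pos hn]
      · intro m hm hm'
        by_cases hc : h ≤ m
        · obtain ⟨n, rfl⟩ := Nat.exists_eq_add_of_le' hc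
          have e1 : (((n + h : ℕ) : ℤ) - h) = (n : ℤ) := by push_cast; ring
          have hn : ¬ n < N := by
            intro hn
            exact hm' (Finset.mem_image.2 ⟨n, Finset.mem_range.2 hn, rfl⟩)
          rw [e1, ext_nat, if_neg hn]
        · unfold ext
          rw [if_neg]
          push Not
          intro h0
          exfalso
          exact hc (by exact_mod_cast (by linarith : (h : ℤ) ≤ m))
    rw [Finset.sum_congr rfl this, Finset.sum_const, Finset.card_range, nsmul_eq_mul]
  -- square sum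
  have h2 : ∑ m ∈ Finset.range (N + H), ‖A m‖ ^ 2 ≤
      H * (N + 2 * ∑ r ∈ Finset.Ico 1 H, ‖corr z N r‖) := by
    have e : ((∑ m ∈ Finset.range (N + H), ‖A m‖ ^ 2 : ℝ) : ℂ) =
        ∑ h ∈ Finset.range H, ∑ h' ∈ Finset.range H, GG z N H h h' := by
      push_cast
      have : ∀ m ∈ Finset.range (N + H), ((‖A m‖ : ℂ)) ^ 2 =
          ∑ h ∈ Finset.range H, ∑ h' ∈ Finset.range H,
            ext z N ((m : ℤ) - h) * conj (ext z N ((m : ℤ) - h')) := by
        intro m _
        rw [← Complex.mul_conj', hA]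
        simp only [map_sum]
        rw [Finset.sum_mul_sum]
      rw [Finset.sum_congr rfl this, Finset.sum_comm]
      refine Finset.sum_congr rfl (fun h _ => ?_)
      rw [Finset.sum_comm]
      rfl
    have hn : ∑ m ∈ Finset.range (N + H), ‖A m‖ ^ 2 =
        ‖∑ h ∈ Finset.range H, ∑ h' ∈ Finset.range H, GG z N H h h'‖ := by
      rw [← e, Complex.norm_real, Real.norm_eq_abs, abs_of_nonneg]
      positivity
    rw [hn]
    refine (norm_sum_le _ _).trans ?_
    have hrow : ∀ h ∈ Finset.range H, ‖∑ h' ∈ Finset.range H, GG z N H h h'‖ ≤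
        N + 2 * ∑ r ∈ Finset.Ico 1 H, ‖corr z N r‖ := by
      intro h hh
      rw [Finset.mem_range] at hh
      refine (norm_sum_le _ _).trans ?_
      have : ∑ h' ∈ Finset.range H, ‖GG z N H h h'‖ =
          ∑ h' ∈ Finset.range H, ‖corr z N (h - h' + (h' - h))‖ := by
        refine Finset.sum_congr rfl (fun h' hh' => ?_)
        rw [Finset.mem_range] at hh'
        exact GG_norm z N H h h' hh hh'
      rw [this]
      refine (row_le (fun r => ‖corr z N r‖) (fun r => norm_nonneg _) H h hh).trans ?_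
      have h0 : ‖corr z N 0‖ ≤ N := by
        unfold corr
        refine (norm_sum_le _ _).trans ?_
        refine (Finset.sum_le_card_nsmul _ _ 1 ?_).trans (by simp)
        intro n _
        rw [norm_mul, RCLike.norm_conj]
        have := hz (n + 0)
        have h' := hz n
        exact mul_le_one₀ this (norm_nonneg _) h'
      linarith
    refine (Finset.sum_le_card_nsmul _ _ _ hrow).trans ?_
    rw [Finset.card_range, nsmul_eq_mul]
  have h3 : (‖∑ m ∈ Finset.range (N + H), A m‖) ^ 2 ≤
      (N + H) * ∑ m ∈ Finset.range (N + H), ‖A m‖ ^ 2 := by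
    have := norm_sum_le (Finset.range (N + H)) A
    calc (‖∑ m ∈ Finset.range (N + H), A m‖) ^ 2 ≤ (∑ m ∈ Finset.range (N + H), ‖A m‖) ^ 2 := by
          gcongr
      _ ≤ (Finset.range (N + H)).card * ∑ m ∈ Finset.range (N + H), ‖A m‖ ^ 2 :=
          sq_sum_le_card_mul_sum_sq
      _ = _ := by rw [Finset.card_range]; push_cast; ring
  rw [h1, norm_mul, Complex.norm_natCast] at h3
  have hX : 0 ≤ N + 2 * ∑ r ∈ Finset.Ico 1 H, ‖corr z N r‖ := by positivity
  have h4 : (H * ‖S‖) ^ 2 ≤ (2 * N) * (H * (N + 2 * ∑ r ∈ Finset.Ico 1 H, ‖corr z N r‖)) := by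
    refine h3.trans ?_
    refine mul_le_mul (by linarith) h2 (by positivity) (by positivity)
  have hH0 : (0 : ℝ) < H := by linarith
  rw [div_mul_eq_mul_div, le_div_iff₀ hH0]
  have : H * (‖S‖ ^ 2 * H) ≤ H * (2 * N * (N + 2 * ∑ r ∈ Finset.Ico 1 H, ‖corr z N r‖)) := by
    nlinarith
  exact le_of_mul_le_mul_left this hH0

end Pool.Agent.Helper6.KS
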